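import Pool.Agent.TH133.PW.KunDefs
import Pool.Agent.TH720.LB.Stm

/-!
# The Kunneth components of the diagonal and the eigenvalues in the middle degree: definitions
-/

open CategoryTheory AlgebraicGeometry Polynomial

universe u v

namespace Pool.Agent.K3h8.MK

open Pool.Agent.H914 Pool.Agent.TH133.PW Pool.Agent.TH720.LB VarClass Obj WeilCohomology

section Alg

variable {K : Type*} [Field K] {V : Type*} [AddCommGroup V] [Module K V]

/-- Some linear combination `φ` of the operators in `S` is annihilated on `gr i` and on `gr j` by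
coprime polynomials: it has no common eigenvalue on `gr i` and `gr j`, over any extension field. -/
def CoprimeOn (gr : ℕ → Submodule K V) (i j : ℕ) (S : Set (V →ₗ[K] V)) : Prop :=
  ∃ φ ∈ Submodule.span K S, ∃ p q : K[X], IsCoprime p q ∧
    (∀ y ∈ gr i, aeval (R := K) (A := Module.End K V) φ p y = 0) ∧
    ∀ y ∈ gr j, aeval (R := K) (A := Module.End K V) φ q y = 0

/-- For all `y` in `gr i` and `y'` in `gr j` some linear combination `φ` of the operators in `S`,
which may depend on `y` and `y'`, satisfies `φ y = y` and `φ y' = 0`. -/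
def SeparatesPair (gr : ℕ → Submodule K V) (i j : ℕ) (S : Set (V →ₗ[K] V)) : Prop :=
  ∀ y ∈ gr i, ∀ y' ∈ gr j, ∃ φ ∈ Submodule.span K S, φ y = y ∧ φ y' = 0

variable {A B : Type*} [Ring A] [Algebra K A] [Ring B] [Algebra K B]

/-- If `p(y) q(w) + p(y') q(w')` is orthogonal to the elements of `Z`, for `y`, `w`, `y'`, `w'` of
degrees `i`, `2 n - i`, `j`, `2 n - j`, then `tr (y w) = 0`. -/
def DetectsPairSums (gr : ℕ → Submodule K A) (n i j : ℕ) (tr : A →ₗ[K] K) (tr' : B →ₗ[K] K)
    (p q : A →ₐ[K] B) (Z : Set B) : Prop :=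
  ∀ y ∈ gr i, ∀ w ∈ gr (2 * n - i), ∀ y' ∈ gr j, ∀ w' ∈ gr (2 * n - j),
    OrthogonalTo tr' Z (p y * q w + p y' * q w') → tr (y * w) = 0

end Alg

variable {k : Type u} [Field k] {𝒱 : VarClass k} {ops : CycleOps 𝒱}

/-- Some linear combination, with coefficients in `K`, of algebraic correspondences of degree zero
has no common eigenvalue on `H^i(Y)` and `H^j(Y)`. -/
def Differ (W : WeilCohomology.{u, v} ops) (Y : 𝒱.Obj) (i j : ℕ) : Prop :=
  CoprimeOn (W.gr Y) i j (cycleOperators W Y Y.dim)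

/-- For every `y` in `H^i(Y)` and every `y'` in `H^j(Y)` some linear combination `φ`, with
coefficients in `K`, of algebraic correspondences of degree zero satisfies `φ y = y` and
`φ y' = 0`. -/
def Pairs (W : WeilCohomology.{u, v} ops) (Y : 𝒱.Obj) (i j : ℕ) : Prop :=
  SeparatesPair (W.gr Y) i j (cycleOperators W Y Y.dim)

/-- If `y`, `w`, `y'`, `w'` have the degrees `i`, `2 n - i`, `j`, `2 n - j`, `n = dim Y`, and
`y × w + y' × w'` is orthogonal to all algebraic cycles of codimension `n` on `Y × Y`, then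
`tr (y w) = 0`. -/
def Detects (W : WeilCohomology.{u, v} ops) (Y : 𝒱.Obj) (i j : ℕ) : Prop :=
  DetectsPairSums (W.gr Y) Y.dim i j (W.tr Y) (W.tr (Y.prod Y)) (W.map (fst Y Y))
    (W.map (snd Y Y)) (algClasses W (Y.prod Y) Y.dim)

/-- The projector of `H(Y)` onto `H^i(Y)` is a linear combination, with coefficients in `K`, of
algebraic correspondences: the `i`-th Kunneth component of the diagonal lies in the `K`-span of the
algebraic classes. -/
def KunnethSpan (W : WeilCohomology.{u, v} ops) (Y : 𝒱.Obj) (i : ℕ) : Prop :=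
  ProjectorInSpan (W.gr Y) i (cycleOperators W Y Y.dim)

/-- The Kunneth components of `X`, in the `K`-span of the algebraic classes, the middle one of `Z`,
and the three statements about the middle cohomology of `Z` and the `2 dim X` degrees below it. -/
def OneVariety (W : WeilCohomology.{u, v} ops) (X Z : 𝒱.Obj) : Prop :=
  List.TFAE [∀ i, KunnethSpan W X i, KunnethSpan W Z Z.dim,
    ∀ d, 1 ≤ d → d ≤ 2 * X.dim → Differ W Z Z.dim (Z.dim - d),
    ∀ d, 1 ≤ d → d ≤ 2 * X.dim → Pairs W Z Z.dim (Z.dim - d),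
    ∀ d, 1 ≤ d → d ≤ 2 * X.dim → Detects W Z Z.dim (Z.dim - d)]

/-- Algebraic cycles which induce the Kunneth projectors of `X` for all theories in `𝒲`, and the
statements about the middle cohomology of `Z` and the `2 dim X` degrees below it, for theories in `𝒲`
which may depend on the degree. -/
def OneVarietyAll (𝒲 : Set (WeilCohomology.{u, v} ops)) (X Z : 𝒱.Obj) : Prop :=
  List.TFAE [∀ i, OneProjectorForAll 𝒲 X i, ∃ W ∈ 𝒲, KunnethSpan W Z Z.dim,
    ∀ d, 1 ≤ d → d ≤ 2 * X.dim → ∃ W ∈ 𝒲, Differ W Z Z.dim (Z.dim - d),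
    ∀ d, 1 ≤ d → d ≤ 2 * X.dim → ∃ W ∈ 𝒲, Pairs W Z Z.dim (Z.dim - d),
    ∀ d, 1 ≤ d → d ≤ 2 * X.dim → ∃ W ∈ 𝒲, Detects W Z Z.dim (Z.dim - d)]

/-- For the theory `W`, the variety `C` with the divisor `c` looks like a curve of positive genus with
a divisor of degree one, and the `P m` with the divisors `h m` look like the projective spaces of
dimension `m` with a hyperplane. -/
structure Factors (W : WeilCohomology.{u, v} ops) (C : 𝒱.Obj) (c : C.Cycles) (P : ℕ → 𝒱.Obj)
    (h : ∀ m, (P m).Cycles) : Prop where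
  curve : CurveLike W C c
  dim : ∀ m, (P m).dim = m
  proj : ∀ m, ProjLike W (P m) (h m)

/-- The class `𝒞` contains with `X` all `(X × C) × P m`. -/
def ClosedUnder (C : 𝒱.Obj) (P : ℕ → 𝒱.Obj) (𝒞 : 𝒱.Obj → Prop) : Prop :=
  ∀ X m, 𝒞 X → 𝒞 ((X.prod C).prod (P m))

/-- For every `d ≥ 1` there are infinitely many `N` with `R N d`. -/
def InfinitelyOften (R : ℕ → ℕ → Prop) : Prop := ∀ d, 1 ≤ d → ∀ b, ∃ N, b ≤ N ∧ R N d

/-- The statement `S`, about a variety and two degrees, for the middle degree `N` and the degree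
`N - d` of the varieties in `𝒞` of dimension `N`, for all `d` with `1 ≤ d ≤ N` and `R N d`. -/
def BelowMiddle (𝒞 : 𝒱.Obj → Prop) (R : ℕ → ℕ → Prop) (S : 𝒱.Obj → ℕ → ℕ → Prop) : Prop :=
  ∀ Z, 𝒞 Z → ∀ d, 1 ≤ d → d ≤ Z.dim → R Z.dim d → S Z Z.dim (Z.dim - d)

/-- The Kunneth components of all varieties in the class `𝒞`, and the middle cohomology `H^N` and the
cohomology `H^(N - d)` of the varieties in `𝒞` of dimension `N`, for the pairs `(N, d)` in `R`. -/
def AllVarieties (W : WeilCohomology.{u, v} ops) (𝒞 : 𝒱.Obj → Prop) (R : ℕ → ℕ → Prop) : Prop :=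
  List.TFAE [∀ X, 𝒞 X → ∀ i, KunnethSpan W X i, BelowMiddle 𝒞 R (Differ W),
    BelowMiddle 𝒞 R (Pairs W), BelowMiddle 𝒞 R (Detects W)]

/-- Algebraic cycles which induce the Kunneth projectors of the varieties in `𝒞` for all theories in
`𝒲`, and the middle cohomology `H^N` and the cohomology `H^(N - d)` of the varieties in `𝒞` of
dimension `N`, for the pairs `(N, d)` in `R` and for theories in `𝒲` which may depend on the variety
and on `d`. -/
def AllVarietiesAll (𝒲 : Set (WeilCohomology.{u, v} ops)) (𝒞 : 𝒱.Obj → Prop)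
    (R : ℕ → ℕ → Prop) : Prop :=
  List.TFAE [∀ X, 𝒞 X → ∀ i, OneProjectorForAll 𝒲 X i,
    BelowMiddle 𝒞 R (fun Z i j => ∃ W ∈ 𝒲, Differ W Z i j),
    BelowMiddle 𝒞 R (fun Z i j => ∃ W ∈ 𝒲, Pairs W Z i j),
    BelowMiddle 𝒞 R (fun Z i j => ∃ W ∈ 𝒲, Detects W Z i j)]

end Pool.Agent.K3h8.MK
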