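import Pool.Agent.K3h8.MK.Pair

/-!
# Descent from the products
-/

open CategoryTheory AlgebraicGeometry Finset Polynomial

universe u v

namespace Pool.Agent.K3h8.MK

open Pool.Agent.H914 Pool.Agent.TH133.PW Pool.Agent.TH720.LB Pool.Agent.W534 Pool.Agent.W537
  Pool.Agent.TH122.Km VarClass Obj WeilCohomology

variable {k : Type u} [Field k] {𝒱 : VarClass k} {ops : CycleOps 𝒱}
  {W : WeilCohomology.{u, v} ops} {X Y Z P C : 𝒱.Obj} {i j : ℕ} {h : P.Cycles} {c : C.Cycles}

/-- From `X × P` to `X`. -/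
theorem Spl.descP (hP : IsProjLike W P h) {a : ℕ} (ha : a ≤ P.dim)
    (hs : Spl W (X.prod P) (i + 2 * a) (j + 2 * a)) : Spl W X i j := by
  obtain ⟨e, he, h1, h2⟩ := hs
  have hmem : ∀ l, ∀ x ∈ W.gr X l, inc W X h a x ∈ W.gr (X.prod P) (l + 2 * a) := fun l x hx =>
    qop_mem (qop_inc hP a) hx (by push_cast; ring)
  refine ⟨coe W X h a ∘ₗ e ∘ₗ inc W X h a,
    KOp.cast (KOp.comp (qop_coe hP ha).kop (KOp.comp he (qop_inc hP a).kop)) (by ring),
    fun x hx => ?_, fun x hx => ?_⟩
  · rw [LinearMap.comp_apply, LinearMap.comp_apply, h1 _ (hmem i x hx), coe_inc hP ha, if_pos rfl]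
  · rw [LinearMap.comp_apply, LinearMap.comp_apply, h2 _ (hmem j x hx), map_zero]

/-- the class of `c` in the product -/
lemma qop_incC (hc : C.IsCyc 1 c) :
    QOp W (X.prod C) (X.prod C) 1 (LinearMap.mulLeft W.K (W.map (snd X C) (W.cl C c))) := by
  have h1 := qop_mul (W := W) (ops.pull_mem (snd X C) hc)
  rwa [W.cl_pull] at h1

/-- From `X × C` to `X`, with `H^0(C)`. -/
theorem Spl.descC0 (hC : IsCurveLike W C c) (hs : Spl W (X.prod C) i j) : Spl W X i j := by
  obtain ⟨e, he, h1, h2⟩ := hs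
  have ht : W.cl C c ∈ W.gr C (2 * 1) := cl_div hC.div
  refine ⟨W.push (fst X C) ∘ₗ LinearMap.mulLeft W.K (W.map (snd X C) (W.cl C c)) ∘ₗ e ∘ₗ
      (W.map (fst X C)).toLinearMap, ?_, fun x hx => ?_, fun x hx => ?_⟩
  · refine KOp.cast (KOp.comp (qop_push (fst X C)).kop (KOp.comp (qop_incC hC.div).kop
      (KOp.comp he (qop_pull (fst X C)).kop))) ?_
    rw [dim_prod, hC.dim]
    push_cast
    ring
  · rw [LinearMap.comp_apply, LinearMap.comp_apply, LinearMap.comp_apply,
      AlgHom.toLinearMap_apply, h1 _ (W.map_mem _ hx), LinearMap.mulLeft_apply,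
      push_fst_mul ht, hC.deg, one_smul]
  · rw [LinearMap.comp_apply, LinearMap.comp_apply, LinearMap.comp_apply,
      AlgHom.toLinearMap_apply, h2 _ (W.map_mem _ hx), map_zero, map_zero]

/-- The operator `y ↦ v_*(w · u^* y)`. -/
lemma kop_span {T A B : 𝒱.Obj} (f : T ⟶ A) (g : T ⟶ B) {d : ℤ} {p q : ℕ} {w : T.Cycles}
    (hw : T.IsCyc p w) (hpq : p + (A.dim + B.dim) = q + T.dim) (hq : (q : ℤ) = A.dim + d) :
    W.push g ∘ₗ LinearMap.mulLeft W.K (W.cl T w) ∘ₗ (W.map f).toLinearMap ∈ KOp W A B d := by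
  have h1 : (A.prod B).IsCyc q (ops.push (Obj.lift f g) w) := ops.push_mem _ hw (by
    rw [dim_prod]; exact hpq)
  have h2 := KOp.gen (W := W) hq h1
  have h3 : W.corr (W.cl _ (ops.push (Obj.lift f g) w)) =
      W.push g ∘ₗ LinearMap.mulLeft W.K (W.cl T w) ∘ₗ (W.map f).toLinearMap := by
    apply LinearMap.ext
    intro y
    rw [corr_apply, W.cl_push, ← W.push_mul, ← W.push_comp, ← W.map_comp, Obj.lift_fst,
      Obj.lift_snd]
    rfl
  rwa [h3] at h2

/-- The computation on `H^i(X) ⊗ H^1(C)`. -/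
lemma curve_calc {s : W.K} {γ : W.H ((X.prod C).prod (X.prod C))}
    {a : W.H X} (ha : a ∈ W.gr X i)
    (hγ : ∀ b ∈ W.gr C 1, W.corr γ (W.map (snd X C) b * W.map (fst X C) a) =
      s • (W.map (snd X C) b * W.map (fst X C) a))
    {d : W.H (C.prod C)} (hd : d ∈ oddSpan W C) :
    W.push (snd (X.prod C) (X.prod C) ≫ fst X C) (γ * W.map (kap X C) d *
      W.map (fst (X.prod C) (X.prod C) ≫ fst X C) a) =
        (s * W.tr C (W.map (diag C) d)) • a := by
  induction hd using Submodule.span_induction with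
  | zero => simp
  | add x y _ _ hx hy =>
    rw [map_add, mul_add, add_mul, map_add, hx, hy, map_add, map_add, mul_add, add_smul]
  | smul r x _ hx =>
    rw [map_smul, mul_smul_comm, smul_mul_assoc, map_smul, hx, map_smul, map_smul, smul_smul,
      smul_eq_mul]
    congr 1
    ring
  | mem x hx =>
    obtain ⟨b, hb, c', hc, rfl⟩ := hx
    have e1 : W.map (kap X C) (W.map (fst C C) b * W.map (snd C C) c') =
        W.map (fst (X.prod C) (X.prod C)) (W.map (snd X C) b) *
          W.map (snd (X.prod C) (X.prod C)) (W.map (snd X C) c') := by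
      rw [map_mul (W.map (kap X C)), ← W.map_comp, ← W.map_comp, kap, Obj.lift_fst, Obj.lift_snd,
        W.map_comp, W.map_comp]
    have e2 : W.map (diag C) (W.map (fst C C) b * W.map (snd C C) c') = b * c' := by
      have k1 : diag C ≫ snd C C = 𝟙 C := Obj.lift_snd _ _
      have k2 : diag C ≫ fst C C = 𝟙 C := Obj.lift_fst _ _
      rw [map_mul (W.map (diag C)), ← W.map_comp, ← W.map_comp, k1, k2, W.map_id, W.map_id]
    -- the push-forward to the second factor
    have e3 : W.push (snd (X.prod C) (X.prod C)) (γ *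
        (W.map (fst (X.prod C) (X.prod C)) (W.map (snd X C) b) *
          W.map (snd (X.prod C) (X.prod C)) (W.map (snd X C) c')) *
        W.map (fst (X.prod C) (X.prod C)) (W.map (fst X C) a)) =
        ((-1 : W.K) ^ i * s) • (W.map (snd X C) b * W.map (fst X C) a * W.map (snd X C) c') := by
      have k1 : γ *
          (W.map (fst (X.prod C) (X.prod C)) (W.map (snd X C) b) *
            W.map (snd (X.prod C) (X.prod C)) (W.map (snd X C) c')) *
          W.map (fst (X.prod C) (X.prod C)) (W.map (fst X C) a) =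
          (-1 : W.K) ^ i • ((γ * W.map (fst (X.prod C) (X.prod C))
            (W.map (snd X C) b * W.map (fst X C) a)) *
              W.map (snd (X.prod C) (X.prod C)) (W.map (snd X C) c')) := by
        rw [mul_assoc γ, mul_assoc
          (W.map (fst (X.prod C) (X.prod C)) (W.map (snd X C) b)),
          W.comm (W.map_mem (snd (X.prod C) (X.prod C)) (W.map_mem (snd X C) hc))
            (W.map_mem (fst (X.prod C) (X.prod C)) (W.map_mem (fst X C) ha)),
          map_mul (W.map (fst (X.prod C) (X.prod C)))]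
        rw [one_mul, mul_smul_comm, mul_smul_comm]
        simp only [mul_assoc]
      rw [k1, map_smul, W.push_mul, ← corr_apply, hγ _ hb, smul_mul_assoc, smul_smul]
    rw [e1, e2, W.map_comp, W.push_comp, e3, map_smul]
    have e4 : W.map (snd X C) b * W.map (fst X C) a * W.map (snd X C) c' =
        (-1 : W.K) ^ i • (W.map (snd X C) (b * c') * W.map (fst X C) a) := by
      rw [mul_assoc, W.comm (W.map_mem (fst X C) ha) (W.map_mem (snd X C) hc), mul_one,
        mul_smul_comm, ← mul_assoc, ← map_mul (W.map (snd X C))]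
    have hbc0 : b * c' ∈ W.gr C (1 + 1) := W.mul_mem hb hc
    have hbc : b * c' ∈ W.gr C (2 * 1) := hbc0
    rw [e4, map_smul, push_fst_mul hbc, smul_smul, smul_smul]
    congr 1
    have hs : (-1 : W.K) ^ i * (-1 : W.K) ^ i = 1 := by
      rw [← pow_add, ← two_mul, pow_mul]; simp
    linear_combination s * W.tr C (b * c') * hs

/-- The contraction of an operator on `X × C` with a class on `C × C`, as an operator on `X`. -/
lemma kop_contract (hC : IsCurveLike W C c) {δ : (C.prod C).Cycles} (hδ : (C.prod C).IsCyc 1 δ)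
    {γ : W.H ((X.prod C).prod (X.prod C))}
    (hγ : γ ∈ spanCycles W ((X.prod C).prod (X.prod C)) ((X.prod C).dim + 0)) :
    W.push (snd (X.prod C) (X.prod C) ≫ fst X C) ∘ₗ
      LinearMap.mulLeft W.K (γ * W.map (kap X C) (W.cl _ δ)) ∘ₗ
        (W.map (fst (X.prod C) (X.prod C) ≫ fst X C)).toLinearMap ∈ KOp W X X 0 := by
  induction hγ using Submodule.span_induction with
  | mem γ hγ =>
    obtain ⟨p, hp, z, hz, rfl⟩ := hγ
    have hw : ((X.prod C).prod (X.prod C)).IsCyc (p + 1) (ops.mul z (ops.pull (kap X C) δ)) :=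
      ops.mul_mem hz (ops.pull_mem _ hδ)
    have := kop_span (W := W) (fst (X.prod C) (X.prod C) ≫ fst X C)
      (snd (X.prod C) (X.prod C) ≫ fst X C) (d := 0) (q := X.dim) hw (by
        simp only [dim_prod, hC.dim] at hp ⊢
        push_cast at hp
        omega) (by ring)
    rwa [W.cl_mul, W.cl_pull] at this
  | zero =>
    rw [zero_mul, LinearMap.mulLeft_zero_eq_zero, LinearMap.zero_comp, LinearMap.comp_zero]
    exact Submodule.zero_mem _
  | add x y _ _ hx hy =>
    have : LinearMap.mulLeft W.K ((x + y) * W.map (kap X C) (W.cl _ δ)) =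
        LinearMap.mulLeft W.K (x * W.map (kap X C) (W.cl _ δ)) +
          LinearMap.mulLeft W.K (y * W.map (kap X C) (W.cl _ δ)) := by
      apply LinearMap.ext
      intro t
      rw [LinearMap.add_apply, LinearMap.mulLeft_apply, LinearMap.mulLeft_apply,
        LinearMap.mulLeft_apply, add_mul, add_mul]
    rw [this, LinearMap.add_comp, LinearMap.comp_add]
    exact Submodule.add_mem _ hx hy
  | smul a x _ hx =>
    have : LinearMap.mulLeft W.K ((a • x) * W.map (kap X C) (W.cl _ δ)) =
        a • LinearMap.mulLeft W.K (x * W.map (kap X C) (W.cl _ δ)) := by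
      apply LinearMap.ext
      intro t
      rw [LinearMap.smul_apply, LinearMap.mulLeft_apply, LinearMap.mulLeft_apply,
        smul_mul_assoc, smul_mul_assoc]
    rw [this, LinearMap.smul_comp, LinearMap.comp_smul]
    exact Submodule.smul_mem _ _ hx

/-- From `X × C` to `X`, with `H^1(C)`. -/
theorem Spl.descC1 (hC : IsCurveLike W C c) (hs : Spl W (X.prod C) (i + 1) (j + 1)) :
    Spl W X i j := by
  obtain ⟨e, he, h1, h2⟩ := hs
  obtain ⟨γ, hγ, rfl⟩ := mem_KOp_iff.1 he
  obtain ⟨δ, hδ, hδ1, hδ2⟩ := curve_delta hC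
  have hmem : ∀ l, ∀ x ∈ W.gr X l, ∀ b ∈ W.gr C 1,
      W.map (snd X C) b * W.map (fst X C) x ∈ W.gr (X.prod C) (l + 1) := by
    intro l x hx b hb
    have := W.mul_mem (W.map_mem (snd X C) hb) (W.map_mem (fst X C) hx)
    rwa [add_comm] at this
  refine ⟨(W.tr C (W.map (diag C) (W.cl _ δ)))⁻¹ • (W.push (snd (X.prod C) (X.prod C) ≫ fst X C) ∘ₗ
      LinearMap.mulLeft W.K (γ * W.map (kap X C) (W.cl _ δ)) ∘ₗ
        (W.map (fst (X.prod C) (X.prod C) ≫ fst X C)).toLinearMap),
    Submodule.smul_mem _ _ (kop_contract hC hδ hγ), fun x hx => ?_, fun x hx => ?_⟩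
  · have := curve_calc (W := W) (s := 1) hx (fun b hb => by
      rw [one_smul]; exact h1 _ (hmem i x hx b hb)) hδ1
    rw [LinearMap.smul_apply, LinearMap.comp_apply, LinearMap.comp_apply,
      LinearMap.mulLeft_apply, AlgHom.toLinearMap_apply, this, one_mul, smul_smul,
      inv_mul_cancel₀ hδ2, one_smul]
  · have := curve_calc (W := W) (s := 0) hx (fun b hb => by
      rw [zero_smul]; exact h2 _ (hmem j x hx b hb)) hδ1
    rw [LinearMap.smul_apply, LinearMap.comp_apply, LinearMap.comp_apply,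
      LinearMap.mulLeft_apply, AlgHom.toLinearMap_apply, this, zero_mul, zero_smul, smul_zero]

/-- From the middle of `(X × C) × P` to two degrees of `X`. -/
theorem Spl.desc (hC : IsCurveLike W C c) (hP : IsProjLike W P h) (hdim : X.dim ≤ P.dim + 1)
    (hji : j < i) (hi : i ≤ 2 * X.dim)
    (hs : Spl W ((X.prod C).prod P) ((X.prod C).prod P).dim
      (((X.prod C).prod P).dim - (i - j))) : Spl W X i j := by
  have hN : ((X.prod C).prod P).dim = X.dim + 1 + P.dim := by
    rw [dim_prod, dim_prod, hC.dim]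
  rw [hN] at hs
  by_cases hpar : i % 2 = (X.dim + 1 + P.dim) % 2
  · obtain ⟨a, ha⟩ : ∃ a, i + 2 * a = X.dim + 1 + P.dim :=
      ⟨(X.dim + 1 + P.dim - i) / 2, by omega⟩
    rw [← ha, show i + 2 * a - (i - j) = j + 2 * a by omega] at hs
    exact (hs.descP hP (by omega)).descC0 hC
  · obtain ⟨a, ha⟩ : ∃ a, i + 1 + 2 * a = X.dim + 1 + P.dim :=
      ⟨(X.dim + 1 + P.dim - (i + 1)) / 2, by omega⟩
    rw [← ha, show i + 1 + 2 * a - (i - j) = j + 1 + 2 * a by omega] at hs
    exact (hs.descP hP (by omega)).descC1 hC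

end Pool.Agent.K3h8.MK
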