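import Pool.Agent.K3h8.MK.Many

/-!
# The main theorems
-/

open CategoryTheory AlgebraicGeometry Finset

universe u v

namespace Pool.Agent.K3h8.MK

open Pool.Agent.H914 Pool.Agent.TH133.PW Pool.Agent.TH720.LB Pool.Agent.W534 Pool.Agent.W537
  Pool.Agent.TH122.Km VarClass Obj WeilCohomology

variable {k : Type u} [Field k] {𝒱 : VarClass k} {ops : CycleOps 𝒱}
  {W : WeilCohomology.{u, v} ops} {X Y Z : 𝒱.Obj} {C : 𝒱.Obj} {c : C.Cycles} {P : ℕ → 𝒱.Obj}
  {h : ∀ m, (P m).Cycles} {i j m : ℕ}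

lemma spl_of_gt (hj : 2 * Y.dim < j) : Spl W Y i j := by
  refine ⟨LinearMap.id, KOp.id Y, fun _ _ => rfl, fun y hy => ?_⟩
  rw [W.gr_eq_bot Y j hj] at hy
  rw [(Submodule.mem_bot _).1 hy, map_zero]

/-- All Kunneth components, from the pairs. -/
lemma span_all_of_spl (hs : ∀ i j, j < i → i ≤ 2 * Y.dim → Spl W Y i j) (i : ℕ) :
    KunnethSpan W Y i := by
  refine span_of_spl fun j hj => ?_
  rcases Nat.lt_or_gt_of_ne hj with h | h
  · by_cases hi : i ≤ 2 * Y.dim
    · exact hs i j h hi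
    · exact (spl_of_gt (by omega)).symm
  · by_cases hj2 : j ≤ 2 * Y.dim
    · exact (hs j i h hj2).symm
    · exact spl_of_gt (by omega)

/-- From `X` to `(X × C) × P`. -/
lemma span_prod (hF : Factors W C c P h) (hX : ∀ i, KunnethSpan W X i) (m i : ℕ) :
    KunnethSpan W ((X.prod C).prod (P m)) i :=
  span_prodP (hF.proj m).to (span_prodC hF.curve.to hX) i

lemma dim_Z (hF : Factors W C c P h) : ((X.prod C).prod (P m)).dim = X.dim + 1 + m := by
  rw [dim_prod, dim_prod, hF.dim, hF.curve.dim]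

/-- From the middle of `(X × C) × P` to two degrees of `X`. -/
lemma spl_desc (hF : Factors W C c P h) (hm : X.dim ≤ m + 1) (hji : j < i)
    (hi : i ≤ 2 * X.dim)
    (hs : Spl W ((X.prod C).prod (P m)) ((X.prod C).prod (P m)).dim
      (((X.prod C).prod (P m)).dim - (i - j))) : Spl W X i j :=
  Spl.desc hF.curve.to (hF.proj m).to (by rw [hF.dim]; exact hm) hji hi hs

/-- The third form, in the middle degree. -/
lemma detects_mid {d : ℕ} : Detects W Z Z.dim (Z.dim - d) ↔ Spl W Z Z.dim (Z.dim - d) :=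
  detects_iff (by omega) (by omega)

/-- **One variety, one theory.** -/
theorem oneVariety (hF : Factors W C c P h) (hm : X.dim ≤ m + 1) :
    OneVariety W X ((X.prod C).prod (P m)) := by
  unfold OneVariety
  simp only [differ_iff, pairs_iff, detects_mid]
  tfae_have 1 → 2 := fun hX => span_prod hF hX m _
  tfae_have 2 → 3 := fun hZ d hd1 hd2 => middle_iff.1 hZ _ (by rw [dim_Z hF]; omega)
  tfae_have 3 → 1 := fun hZ => span_all_of_spl fun i j hji hi =>
    spl_desc hF hm hji hi (hZ (i - j) (by omega) (by omega))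
  tfae_have 3 → 4 := fun h => h
  tfae_have 4 → 5 := fun h => h
  tfae_have 5 → 3 := fun h => h
  tfae_finish

/-- **All varieties of a class, one theory.** -/
theorem allVarieties (hF : Factors W C c P h) {𝒞 : 𝒱.Obj → Prop} (h𝒞 : ClosedUnder C P 𝒞)
    {R : ℕ → ℕ → Prop} (hR : InfinitelyOften R) : AllVarieties W 𝒞 R := by
  unfold AllVarieties BelowMiddle
  simp only [differ_iff, pairs_iff, detects_mid]
  tfae_have 1 → 2 := fun hall Z hZ d hd1 hd2 _ => middle_iff.1 (hall Z hZ _) _ (by omega)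
  tfae_have 2 → 1 := by
    intro hall X hX
    refine span_all_of_spl fun i j hji hi => ?_
    obtain ⟨N, hN, hRN⟩ := hR (i - j) (by omega) (2 * X.dim + 1)
    have hd : ((X.prod C).prod (P (N - X.dim - 1))).dim = N := by rw [dim_Z hF]; omega
    refine spl_desc hF (m := N - X.dim - 1) (by omega) hji hi
      (hall _ (h𝒞 X _ hX) (i - j) (by omega) (by omega) (by rw [hd]; exact hRN))
  tfae_have 2 → 3 := fun h => h
  tfae_have 3 → 4 := fun h => h
  tfae_have 4 → 2 := fun h => h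
  tfae_finish

/-- The Kunneth components in all theories, from the pairs in theories which may depend on the
pair. -/
lemma all_of_spl {𝒲 : Set (WeilCohomology.{u, v} ops)} (hne : 𝒲.Nonempty)
    (h𝒲 : SameTracesAll 𝒲 X) (hs : ∀ i j, j < i → i ≤ 2 * X.dim → ∃ W ∈ 𝒲, Spl W X i j)
    (i : ℕ) : OneProjectorForAll 𝒲 X i := by
  obtain ⟨W, hW⟩ := hne
  refine oneProjector_of_span h𝒲 hW (span_all_of_spl (fun i j hji hi => ?_) i)
  obtain ⟨W', hW', h⟩ := hs i j hji hi
  exact h.transfer h𝒲 hW' hW (by omega)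

lemma span_of_all {𝒲 : Set (WeilCohomology.{u, v} ops)} (hW : W ∈ 𝒲)
    (h : ∀ i, OneProjectorForAll 𝒲 X i) (i : ℕ) : KunnethSpan W X i := by
  obtain ⟨P, hP, h⟩ := h i
  exact ⟨_, Submodule.subset_span ⟨P, hP, rfl⟩, h W hW⟩

/-- **One variety, several theories.** -/
theorem oneVarietyAll {𝒲 : Set (WeilCohomology.{u, v} ops)} (hne : 𝒲.Nonempty)
    (hF : ∀ W ∈ 𝒲, Factors W C c P h) (h𝒲 : SameTracesAll 𝒲 X) (hm : X.dim ≤ m + 1) :
    OneVarietyAll 𝒲 X ((X.prod C).prod (P m)) := by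
  unfold OneVarietyAll
  simp only [differ_iff, pairs_iff, detects_mid]
  tfae_have 1 → 2 := by
    intro hX
    obtain ⟨W, hW⟩ := hne
    exact ⟨W, hW, span_prod (hF W hW) (span_of_all hW hX) m _⟩
  tfae_have 2 → 3 := by
    rintro ⟨W, hW, hZ⟩ d hd1 hd2
    exact ⟨W, hW, middle_iff.1 hZ _ (by rw [dim_Z (hF W hW)]; omega)⟩
  tfae_have 3 → 1 := by
    intro hZ
    refine all_of_spl hne h𝒲 fun i j hji hi => ?_
    obtain ⟨W, hW, h⟩ := hZ (i - j) (by omega) (by omega)
    exact ⟨W, hW, spl_desc (hF W hW) hm hji hi h⟩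
  tfae_have 3 → 4 := fun h => h
  tfae_have 4 → 5 := fun h => h
  tfae_have 5 → 3 := fun h => h
  tfae_finish

/-- **All varieties of a class, several theories.** -/
theorem allVarietiesAll {𝒲 : Set (WeilCohomology.{u, v} ops)} (hne : 𝒲.Nonempty)
    (hF : ∀ W ∈ 𝒲, Factors W C c P h) {𝒞 : 𝒱.Obj → Prop} (h𝒞 : ClosedUnder C P 𝒞)
    (h𝒲 : ∀ X, 𝒞 X → SameTracesAll 𝒲 X) {R : ℕ → ℕ → Prop} (hR : InfinitelyOften R) :
    AllVarietiesAll 𝒲 𝒞 R := by
  unfold AllVarietiesAll BelowMiddle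
  simp only [differ_iff, pairs_iff, detects_mid]
  tfae_have 1 → 2 := by
    intro hall Z hZ d hd1 hd2 _
    obtain ⟨W, hW⟩ := hne
    exact ⟨W, hW, middle_iff.1 (span_of_all hW (hall Z hZ) _) _ (by omega)⟩
  tfae_have 2 → 1 := by
    intro hall X hX
    obtain ⟨W₀, hW₀⟩ := hne
    refine all_of_spl ⟨W₀, hW₀⟩ (h𝒲 X hX) fun i j hji hi => ?_
    obtain ⟨N, hN, hRN⟩ := hR (i - j) (by omega) (2 * X.dim + 1)
    have hd : ((X.prod C).prod (P (N - X.dim - 1))).dim = N := by rw [dim_Z (hF W₀ hW₀)]; omega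
    obtain ⟨W, hW, h⟩ := hall _ (h𝒞 X (N - X.dim - 1) hX) (i - j) (by omega) (by omega)
      (by rw [hd]; exact hRN)
    exact ⟨W, hW, spl_desc (hF W hW) (m := N - X.dim - 1) (by omega) hji hi h⟩
  tfae_have 2 → 3 := fun h => h
  tfae_have 3 → 4 := fun h => h
  tfae_have 4 → 2 := fun h => h
  tfae_finish

end Pool.Agent.K3h8.MK
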