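import Pool.Agent.K3h8.MK.Prod

/-!
# Several theories
-/

open CategoryTheory AlgebraicGeometry Finset

universe u v

namespace Pool.Agent.K3h8.MK

open Pool.Agent.H914 Pool.Agent.TH133.PW Pool.Agent.TH720.LB Pool.Agent.W534 Pool.Agent.W537
  Pool.Agent.TH122.Km VarClass Obj WeilCohomology

variable {k : Type u} [Field k] {𝒱 : VarClass k} {ops : CycleOps 𝒱}
  {W : WeilCohomology.{u, v} ops} {X : 𝒱.Obj}

/-- **One cycle for all theories with the same traces**, which separates two degrees, from one
theory and coefficients in `K`. -/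
theorem cycle_of_spl {𝒲 : Set (WeilCohomology.{u, v} ops)} (h𝒲 : SameTracesAll 𝒲 X)
    (hW : W ∈ 𝒲) {i j : ℕ} (hij : j ≠ i) (h : Spl W X i j) :
    ∃ w, (X.prod X).IsCyc X.dim w ∧ ∀ W' ∈ 𝒲, (∀ y ∈ W'.gr X i, W'.corr (W'.cl _ w) y = y) ∧
      ∀ y ∈ W'.gr X j, W'.corr (W'.cl _ w) y = 0 := by
  obtain ⟨P, hP, hP1, hP2⟩ := h
  rw [← span_cycleOperators0] at hP
  rw [Submodule.mem_span_set'] at hP
  obtain ⟨r, c, g, hg⟩ := hP
  choose z hz hzg using fun j => (g j).2
  obtain ⟨f, hf⟩ := exists_form W.K
  -- the rational cycle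
  set T : (X.prod X).Cycles := ∑ j, f (c j) • z j with hT
  have hTcyc : (X.prod X).IsCyc X.dim T := by
    classical
    have : ∀ s : Finset (Fin r), (X.prod X).IsCyc X.dim (∑ j ∈ s, f (c j) • z j) := by
      intro s
      induction s using Finset.induction_on with
      | empty => rw [Finset.sum_empty]; exact SmVar.IsCyc.zero _ _
      | insert a s ha ih =>
        rw [Finset.sum_insert ha]
        exact SmVar.IsCyc.add ((hz a).smul _) ih
    exact this _
  have hTop : ∀ W' : WeilCohomology.{u, v} ops, W'.corr (W'.cl _ T) =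
      ∑ j, ((f (c j) : ℚ) : W'.K) • W'.corr (W'.cl _ (z j)) := by
    intro W'
    classical
    have : ∀ s : Finset (Fin r), W'.corr (W'.cl _ (∑ j ∈ s, f (c j) • z j)) =
        ∑ j ∈ s, ((f (c j) : ℚ) : W'.K) • W'.corr (W'.cl _ (z j)) := by
      intro s
      induction s using Finset.induction_on with
      | empty => rw [Finset.sum_empty, Finset.sum_empty, map_zero, corr_zero]
      | insert a s ha ih =>
        rw [Finset.sum_insert ha, Finset.sum_insert ha, map_add, corr_add, ih, W'.cl_smul,
          corr_smul]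
    exact this _
  have hR : Realized.{u, v} ops X 0 (fun W => W.corr (W.cl _ T)) :=
    Or.inl ⟨X.dim, by simp, T, hTcyc, fun _ => rfl⟩
  -- the traces for the first theory
  have htr : ∀ m, m = i ∨ m = j → ∀ (y : (X.prod X).Cycles), (X.prod X).IsCyc X.dim y →
      LinearMap.trace W.K (W.H X)
        (W.corr (W.cl _ T) * W.corr (W.cl _ y) * proj (W.isInternal X) m) =
      if m = i then LinearMap.trace W.K (W.H X) (W.corr (W.cl _ y) * proj (W.isInternal X) i)
        else 0 := by
    intro m hmij y hy
    have hyK : W.corr (W.cl _ y) ∈ KOp W X X 0 := KOp.gen (p := X.dim) (by ring) hy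
    have h1 : ∀ j, ∃ q : ℚ, LinearMap.trace W.K (W.H X)
        (W.corr (W.cl _ (z j)) * W.corr (W.cl _ y) * proj (W.isInternal X) m) = (q : W.K) := by
      intro j
      obtain ⟨q, hq⟩ := h𝒲 m (compCyc ops y (z j)) (compCyc_mem hy (hz j) rfl)
      refine ⟨q, ?_⟩
      have := hq W hW _ (isProjector_proj W X m)
      rw [cycOp, corr_compCyc W (hz j)] at this
      exact this
    choose q hq using h1
    have e1 : LinearMap.trace W.K (W.H X)
        (W.corr (W.cl _ T) * W.corr (W.cl _ y) * proj (W.isInternal X) m) =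
        ((f (LinearMap.trace W.K (W.H X)
          (P * W.corr (W.cl _ y) * proj (W.isInternal X) m)) : ℚ) : W.K) := by
      have e2 : P * W.corr (W.cl _ y) * proj (W.isInternal X) m =
          ∑ j, c j • (W.corr (W.cl _ (z j)) * W.corr (W.cl _ y) * proj (W.isInternal X) m) := by
        rw [← hg, Finset.sum_mul, Finset.sum_mul]
        apply Finset.sum_congr rfl
        intro j _
        rw [smul_mul_assoc, smul_mul_assoc, ← hzg]
      have e3 : ∀ j, c j * (q j : W.K) = q j • c j := fun j => by rw [Rat.smul_def, mul_comm]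
      rw [hTop, Finset.sum_mul, Finset.sum_mul, map_sum, e2, map_sum, map_sum, Rat.cast_sum]
      apply Finset.sum_congr rfl
      intro j _
      rw [smul_mul_assoc, smul_mul_assoc, map_smul, map_smul, hq, smul_eq_mul, smul_eq_mul, e3,
        map_smul, smul_eq_mul, Rat.cast_mul, mul_comm]
    rw [e1]
    split_ifs with hm
    · subst hm
      have e4 : P * W.corr (W.cl _ y) * proj (W.isInternal X) m =
          W.corr (W.cl _ y) * proj (W.isInternal X) m := by
        apply LinearMap.ext
        intro a
        rw [Module.End.mul_apply, Module.End.mul_apply, Module.End.mul_apply,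
          hP1 _ (kop_gr hyK m (proj_mem (W.isInternal X) m a))]
      obtain ⟨q', hq'⟩ := h𝒲 m y hy
      have e5 := hq' W hW _ (isProjector_proj W X m)
      rw [cycOp] at e5
      rw [e4, e5]
      have e6 : f (q' : W.K) = q' := by
        have : (q' : W.K) = q' • (1 : W.K) := by rw [Rat.smul_def, mul_one]
        rw [this, map_smul, hf, smul_eq_mul, mul_one]
      rw [e6]
    · obtain rfl : m = j := by tauto
      have e4 : P * W.corr (W.cl _ y) * proj (W.isInternal X) m = 0 := by
        apply LinearMap.ext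
        intro a
        rw [Module.End.mul_apply, Module.End.mul_apply,
          hP2 _ (kop_gr hyK m (proj_mem (W.isInternal X) m a)), LinearMap.zero_apply]
      rw [e4, map_zero, map_zero, Rat.cast_zero]
  -- the cycles of the powers
  have hpowR : ∀ s : ℕ, ∃ y, (X.prod X).IsCyc X.dim y ∧ ∀ W : WeilCohomology.{u, v} ops,
      W.corr (W.cl _ T) ^ s = W.corr (W.cl _ y) := fun s =>
    cyc_of_realized (i := X.dim) le_rfl ((hR.pow0 s).cast (by simp))
  choose y hy hyW using hpowR
  choose q hq using fun m s => h𝒲 m (y s) (hy s)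
  have hq' : ∀ m s, ∀ W' ∈ 𝒲, LinearMap.trace W'.K (W'.H X)
      (proj (W'.isInternal X) m * W'.corr (W'.cl _ T) ^ s) = (q m s : W'.K) := by
    intro m s W' hW'
    rw [hyW, LinearMap.trace_mul_comm]
    exact hq m s W' hW' _ (isProjector_proj W' X m)
  have hrec : ∀ m, m = i ∨ m = j → ∀ s, q m (s + 1) = if m = i then q i s else 0 := by
    intro m hmij s
    have e1 := htr m hmij (y s) (hy s)
    rw [← hyW, ← pow_succ', LinearMap.trace_mul_comm, hq' m (s + 1) W hW,
      LinearMap.trace_mul_comm, hq' i s W hW] at e1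
    split_ifs with hm
    · rw [if_pos hm] at e1
      exact_mod_cast e1
    · rw [if_neg hm] at e1
      exact_mod_cast e1
  have hb : ∀ m, ∀ W' ∈ 𝒲, Module.finrank W'.K (W'.gr X m) = Module.finrank W.K (W.gr X m) := by
    intro m W' hW'
    have e1 := hq' m 0 W' hW'
    have e2 := hq' m 0 W hW
    rw [pow_zero, mul_one, trace_proj] at e1 e2
    have e3 : ((Module.finrank W.K (W.gr X m) : ℕ) : ℚ) = q m 0 := by exact_mod_cast e2
    have e4 : ((Module.finrank W'.K (W'.gr X m) : ℕ) : ℚ) = q m 0 := by exact_mod_cast e1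
    rw [← e3] at e4
    exact_mod_cast e4
  have hcomm : ∀ (W' : WeilCohomology.{u, v} ops) (m : ℕ),
      Commute (proj (W'.isInternal X) m) (W'.corr (W'.cl _ T)) := by
    intro W' m
    have h1 : IsHom (W'.gr X) 0 (W'.corr (W'.cl _ T)) := by
      simpa using hR.isHom W'
    exact h1.proj_comm (W'.isInternal X) m
  set M := Module.finrank W.K (W.H X) + 1 with hM
  have hbM : ∀ m, ∀ W' ∈ 𝒲, Module.finrank W'.K (W'.gr X m) ≤ M := by
    intro m W' hW'
    rw [hb m W' hW']
    exact (Submodule.finrank_le _).trans (Nat.le_succ _)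
  obtain ⟨w, hw, hwW⟩ := cyc_of_realized (i := X.dim) le_rfl
    ((hR.ev (1 - (1 - Polynomial.X ^ M) ^ M)).cast (by simp))
  refine ⟨w, hw, fun W' hW' => ⟨fun a ha => ?_, fun a ha => ?_⟩⟩
  · rw [← hwW W']
    have h1 := kill (W'.isInternal X) (hcomm W' i) (fun s => hq' i s W' hW')
      (p := Polynomial.X - 1) (by
        intro r
        induction r using Polynomial.induction_on' with
        | add r r' hr hr' => rw [mul_add, map_add, hr, hr', add_zero]
        | monomial b c =>
          rw [sub_mul, one_mul, map_sub, Polynomial.X_mul_monomial, tau_monomial, tau_monomial,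
            hrec i (Or.inl rfl), if_pos rfl, sub_self])
      (hbM i W' hW') a ha
    have h2 : (1 - (1 - Polynomial.X ^ M) ^ M : Polynomial ℚ) =
        1 - (-(∑ t ∈ range M, Polynomial.X ^ t)) ^ M * (Polynomial.X - 1) ^ M := by
      rw [← mul_pow]
      congr 2
      have := mul_geom_sum (Polynomial.X : Polynomial ℚ) M
      linear_combination this
    rw [h2, map_sub, map_mul, map_one, LinearMap.sub_apply, Module.End.mul_apply,
      map_pow _ (Polynomial.X - 1) M, h1, map_zero, sub_zero, Module.End.one_apply]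
  · rw [← hwW W']
    have h1 := kill (W'.isInternal X) (hcomm W' j) (fun s => hq' j s W' hW')
      (p := Polynomial.X) (by
        intro r
        induction r using Polynomial.induction_on' with
        | add r r' hr hr' => rw [mul_add, map_add, hr, hr', add_zero]
        | monomial b c =>
          rw [Polynomial.X_mul_monomial, tau_monomial, hrec j (Or.inr rfl), if_neg hij, mul_zero])
      (hbM j W' hW') a ha
    have h2 : (1 - (1 - Polynomial.X ^ M) ^ M : Polynomial ℚ) =
        (∑ t ∈ range M, (1 - Polynomial.X ^ M) ^ t) * Polynomial.X ^ M := by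
      have := geom_sum_mul_neg (1 - Polynomial.X ^ M : Polynomial ℚ) M
      rw [← this]
      ring
    rw [h2, map_mul, Module.End.mul_apply, map_pow, h1, map_zero]

/-- The separation of two degrees does not depend on the theory. -/
theorem Spl.transfer {𝒲 : Set (WeilCohomology.{u, v} ops)} (h𝒲 : SameTracesAll 𝒲 X)
    (hW : W ∈ 𝒲) {W' : WeilCohomology.{u, v} ops} (hW' : W' ∈ 𝒲) {i j : ℕ} (hij : j ≠ i)
    (h : Spl W X i j) : Spl W' X i j := by
  obtain ⟨w, hw, h1⟩ := cycle_of_spl h𝒲 hW hij h
  exact ⟨_, KOp.gen (p := X.dim) (by ring) hw, (h1 W' hW').1, (h1 W' hW').2⟩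

end Pool.Agent.K3h8.MK
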