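import Pool.Agent.TH133.PW.Kun
import Pool.Agent.K3h8.MK.Defs

/-!
# Two degrees
-/

open CategoryTheory AlgebraicGeometry Finset Polynomial

universe u v

namespace Pool.Agent.K3h8.MK

open Pool.Agent.H914 Pool.Agent.TH133.PW Pool.Agent.TH720.LB Pool.Agent.W534 Pool.Agent.W537
  Pool.Agent.TH122.Km VarClass Obj WeilCohomology

variable {k : Type u} [Field k] {𝒱 : VarClass k} {ops : CycleOps 𝒱}
  {W : WeilCohomology.{u, v} ops} {X Y Z : 𝒱.Obj} {i j : ℕ}

lemma kmul {X : 𝒱.Obj} : ∀ a ∈ KOp W X X 0, ∀ b ∈ KOp W X X 0,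
    (a * b : Module.End W.K (W.H X)) ∈ KOp W X X 0 :=
  fun _ ha _ hb => KOp.cast (KOp.comp ha hb) (by ring)

lemma kone {X : 𝒱.Obj} : (1 : Module.End W.K (W.H X)) ∈ KOp W X X 0 := KOp.id X

/-- A combination of correspondences which is the identity on `H^i` and zero on `H^j`. -/
def Spl (W : WeilCohomology.{u, v} ops) (Y : 𝒱.Obj) (i j : ℕ) : Prop :=
  ∃ e ∈ KOp W Y Y 0, (∀ y ∈ W.gr Y i, e y = y) ∧ ∀ y ∈ W.gr Y j, e y = 0

lemma Spl.symm (h : Spl W Y i j) : Spl W Y j i := by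
  obtain ⟨e, he, h1, h2⟩ := h
  refine ⟨LinearMap.id - e, Submodule.sub_mem _ kone he, fun y hy => ?_, fun y hy => ?_⟩
  · rw [LinearMap.sub_apply, h2 y hy, sub_zero, LinearMap.id_apply]
  · rw [LinearMap.sub_apply, h1 y hy, LinearMap.id_apply, sub_self]

/-- the dual degrees -/
lemma Spl.dual (hi : i ≤ 2 * Y.dim) (hj : j ≤ 2 * Y.dim) (h : Spl W Y i j) :
    Spl W Y (2 * Y.dim - i) (2 * Y.dim - j) := by
  obtain ⟨e, he, h1, h2⟩ := h
  obtain ⟨ψ, hψ, hadj⟩ := KOp.exists_adjoint he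
  have hψ0 : ψ ∈ KOp W Y Y 0 := KOp.cast hψ (by ring)
  refine ⟨ψ, hψ0, fun b hb => ?_, fun b hb => ?_⟩
  · rw [← sub_eq_zero]
    apply nondeg_right
    intro c
    refine gr_induction (W.isInternal Y) (p := fun c => W.tr Y (c * (ψ b - b)) = 0) ?_ ?_ c
    · intro l c hc
      by_cases hl : l = i
      · subst hl
        rw [mul_sub, map_sub, ← hadj, h1 c hc, sub_self]
      · exact W.tr_eq_zero (W.mul_mem hc (Submodule.sub_mem _ (kop_gr hψ0 _ hb) hb)) (by omega)
    · intro c c' h1 h2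
      rw [add_mul, map_add, h1, h2, add_zero]
  · apply nondeg_right
    intro c
    refine gr_induction (W.isInternal Y) (p := fun c => W.tr Y (c * ψ b) = 0) ?_ ?_ c
    · intro l c hc
      by_cases hl : l = j
      · subst hl
        rw [← hadj, h2 c hc, zero_mul, map_zero]
      · exact W.tr_eq_zero (W.mul_mem hc (kop_gr hψ0 _ hb)) (by omega)
    · intro c c' h1 h2
      rw [add_mul, map_add, h1, h2, add_zero]

lemma Spl.dual_iff (hi : i ≤ 2 * Y.dim) (hj : j ≤ 2 * Y.dim) :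
    Spl W Y (2 * Y.dim - i) (2 * Y.dim - j) ↔ Spl W Y i j := by
  refine ⟨fun h => ?_, fun h => h.dual hi hj⟩
  have := h.dual (by omega) (by omega)
  rwa [Nat.sub_sub_self hi, Nat.sub_sub_self hj] at this

lemma aeval_kop {φ : Module.End W.K (W.H Y)} (hφ : φ ∈ KOp W Y Y 0) (g : Polynomial W.K) :
    aeval (R := W.K) (A := Module.End W.K (W.H Y)) φ g ∈ KOp W Y Y 0 := by
  induction g using Polynomial.induction_on with
  | C a =>
    rw [Polynomial.aeval_C, Algebra.algebraMap_eq_smul_one]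
    exact Submodule.smul_mem _ _ kone
  | add p q hp hq => rw [map_add]; exact Submodule.add_mem _ hp hq
  | monomial n a h =>
    rw [pow_succ, ← mul_assoc, map_mul, Polynomial.aeval_X]
    exact kmul _ h _ hφ

lemma spl_of_differ (h : Differ W Y i j) : Spl W Y i j := by
  obtain ⟨φ, hφ, p, q, ⟨s, t, hst⟩, hp, hq⟩ := h
  rw [span_cycleOperators0] at hφ
  have h1 : ∀ y : W.H Y, aeval (R := W.K) (A := Module.End W.K (W.H Y)) φ s
      (aeval (R := W.K) (A := Module.End W.K (W.H Y)) φ p y) +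
      aeval (R := W.K) (A := Module.End W.K (W.H Y)) φ (t * q) y = y := by
    intro y
    rw [← Module.End.mul_apply, ← map_mul, ← LinearMap.add_apply, ← map_add, hst, map_one,
      Module.End.one_apply]
  refine ⟨aeval (R := W.K) (A := Module.End W.K (W.H Y)) φ (t * q), aeval_kop hφ _,
    fun y hy => ?_, fun y hy => ?_⟩
  · have := h1 y
    rwa [hp y hy, map_zero, zero_add] at this
  · rw [map_mul, Module.End.mul_apply, hq y hy, map_zero]

lemma differ_of_spl (h : Spl W Y i j) : Differ W Y i j := by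
  obtain ⟨e, he, h1, h2⟩ := h
  refine ⟨e, by rw [span_cycleOperators0]; exact he, X - 1, X, ⟨-1, 1, by ring⟩,
    fun y hy => ?_, fun y hy => ?_⟩
  · rw [map_sub, Polynomial.aeval_X, map_one, LinearMap.sub_apply, h1 y hy, Module.End.one_apply,
      sub_self]
  · rw [Polynomial.aeval_X, h2 y hy]

lemma differ_iff : Differ W Y i j ↔ Spl W Y i j := ⟨spl_of_differ, differ_of_spl⟩

lemma pairs_iff : Pairs W Y i j ↔ Spl W Y i j := by
  constructor
  · intro h
    have h' : ∀ y ∈ W.gr Y i, ∀ y' ∈ W.gr Y j, ∃ a ∈ KOp W Y Y 0, a y = y ∧ a y' = 0 := by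
      intro y hy y' hy'
      have := h y hy y' hy'
      rwa [span_cycleOperators0] at this
    obtain ⟨c, hc, h1, h2⟩ := separate_two kone kmul (IsNoetherian.noetherian _)
      (IsNoetherian.noetherian _) (fun b hb y hy => kop_gr hb i hy)
      (fun b hb y hy => kop_gr hb j hy) h'
    exact Spl.symm ⟨c, hc, h2, h1⟩
  · rintro ⟨e, he, h1, h2⟩ y hy y' hy'
    exact ⟨e, by rw [span_cycleOperators0]; exact he, h1 y hy, h2 y' hy'⟩

/-- Detection of the pairs gives the separation. -/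
theorem pairs_of_detects (hi2 : i ≤ 2 * Y.dim) (hj2 : j ≤ 2 * Y.dim) (h : Detects W Y i j) :
    Pairs W Y i j := by
  intro y hy y' hy'
  rw [span_cycleOperators0]
  -- the subspace of the pairs `(φ y, φ y')`
  let M : Submodule W.K (W.H Y × W.H Y) := (KOp W Y Y 0).map
    ((LinearMap.applyₗ y).prod (LinearMap.applyₗ y'))
  by_contra hcon
  have hnot : ((y, 0) : W.H Y × W.H Y) ∉ M := by
    rintro ⟨φ, hφ, hφy⟩
    have h1 : φ y = y := congrArg Prod.fst hφy
    have h2 : φ y' = 0 := congrArg Prod.snd hφy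
    exact hcon ⟨φ, hφ, h1, h2⟩
  obtain ⟨f, hf, hfM⟩ := Submodule.exists_le_ker_of_notMem hnot
  obtain ⟨w, hw⟩ := exists_dual (W := W) (X := Y) (f ∘ₗ LinearMap.inl W.K _ _)
  obtain ⟨w', hw'⟩ := exists_dual (W := W) (X := Y) (f ∘ₗ LinearMap.inr W.K _ _)
  have hff : ∀ x x', f (x, x') = W.tr Y (x * w) + W.tr Y (x' * w') := by
    intro x x'
    rw [← hw, ← hw', LinearMap.comp_apply, LinearMap.comp_apply, ← map_add]
    simp
  apply hf
  rw [hff, zero_mul, map_zero, add_zero, ← tr_mul_proj hi2 hy w]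
  apply h y hy _ (proj_mem _ _ _) y' hy' _ (proj_mem (W.isInternal Y) (2 * Y.dim - j) w')
  rintro _ ⟨z, hz, rfl⟩
  have hφ : W.corr (W.cl (Y.prod Y) z) ∈ KOp W Y Y 0 := KOp.gen (p := Y.dim) (by ring) hz
  rw [mul_add, map_add, tr_cycle_ext, tr_cycle_ext, tr_mul_proj hi2 (kop_gr hφ i hy),
    tr_mul_proj hj2 (kop_gr hφ j hy'), ← hff]
  exact hfM ⟨_, hφ, rfl⟩

/-- Separation gives the detection of the pairs. -/
theorem detects_of_pairs (h : Pairs W Y i j) : Detects W Y i j := by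
  intro y hy w _ y' hy' w' _ horth
  obtain ⟨φ, hφ, h1, h2⟩ := h y hy y' hy'
  have key : ∀ φ ∈ Submodule.span W.K (cycleOperators W Y Y.dim),
      W.tr Y (φ y * w) + W.tr Y (φ y' * w') = 0 := by
    intro φ hφ
    induction hφ using Submodule.span_induction with
    | mem φ hφ =>
      obtain ⟨z, hz, rfl⟩ := hφ
      have := horth _ ⟨z, hz, rfl⟩
      rwa [mul_add, map_add, tr_cycle_ext, tr_cycle_ext] at this
    | zero => simp
    | add φ ψ _ _ h1 h2 =>
      rw [LinearMap.add_apply, LinearMap.add_apply, add_mul, add_mul, map_add, map_add]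
      linear_combination h1 + h2
    | smul a φ _ h1 =>
      rw [LinearMap.smul_apply, LinearMap.smul_apply, smul_mul_assoc, smul_mul_assoc, map_smul,
        map_smul, ← smul_add, h1, smul_zero]
  have := key φ hφ
  rwa [h1, h2, zero_mul, map_zero, add_zero] at this

/-- **Two degrees.** -/
lemma detects_iff (hi : i ≤ 2 * Y.dim) (hj : j ≤ 2 * Y.dim) : Detects W Y i j ↔ Spl W Y i j :=
  ⟨fun h => pairs_iff.1 (pairs_of_detects hi hj h), fun h => detects_of_pairs (pairs_iff.2 h)⟩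

/-- The Kunneth component, from all pairs. -/
lemma span_of_spl (h : ∀ j, j ≠ i → Spl W Y i j) : KunnethSpan W Y i := by
  have h1 := (kunneth_span_tfae (W := W) (X := Y) i).out 0 1
  refine h1.2 fun j hj y hy y' hy' => ?_
  exact pairs_iff.2 (h j hj) y hy y' hy'

lemma spl_of_span (h : KunnethSpan W Y i) (j : ℕ) (hj : j ≠ i) : Spl W Y i j := by
  obtain ⟨P, hP, hP'⟩ := h
  rw [span_cycleOperators0] at hP
  refine ⟨P, hP, fun y hy => ?_, fun y hy => ?_⟩
  · rw [hP' i y hy, if_pos rfl]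
  · rw [hP' j y hy, if_neg hj]

/-- From the lower degrees to all degrees. -/
lemma spl_all (hi : i ≤ 2 * Y.dim) (h1 : ∀ j < i, Spl W Y i j)
    (h2 : ∀ j < 2 * Y.dim - i, Spl W Y (2 * Y.dim - i) j) (j : ℕ) (hj : j ≠ i) : Spl W Y i j := by
  rcases Nat.lt_or_gt_of_ne hj with h | h
  · exact h1 j h
  · by_cases hj2 : j ≤ 2 * Y.dim
    · have := h2 (2 * Y.dim - j) (by omega)
      exact (Spl.dual_iff hi hj2).1 this
    · refine ⟨LinearMap.id, KOp.id Y, fun _ _ => rfl, fun y hy => ?_⟩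
      rw [W.gr_eq_bot Y j (by omega)] at hy
      rw [(Submodule.mem_bot _).1 hy, map_zero]

/-- The middle degree. -/
lemma middle_iff : KunnethSpan W Y Y.dim ↔ ∀ j < Y.dim, Spl W Y Y.dim j := by
  refine ⟨fun h j hj => spl_of_span h j (by omega), fun h => span_of_spl
    (spl_all (by omega) h fun j hj => ?_)⟩
  have h2 : 2 * Y.dim - Y.dim = Y.dim := by omega
  rw [h2] at hj ⊢
  exact h j hj

end Pool.Agent.K3h8.MK
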