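import Pool.Agent.K3h8.MK.Desc

/-!
# The Kunneth components of the products
-/

open CategoryTheory AlgebraicGeometry Finset Polynomial

universe u v

namespace Pool.Agent.K3h8.MK

open Pool.Agent.H914 Pool.Agent.TH133.PW Pool.Agent.TH720.LB Pool.Agent.W534 Pool.Agent.W537
  Pool.Agent.TH122.Km VarClass Obj WeilCohomology

variable {k : Type u} [Field k] {𝒱 : VarClass k} {ops : CycleOps 𝒱}
  {W : WeilCohomology.{u, v} ops} {X Y Z P C : 𝒱.Obj} {i j : ℕ} {h : P.Cycles} {c : C.Cycles}

/-- The extension `φ ⊗ id` of a combination of correspondences. -/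
lemma kop_ext {φ : W.H X →ₗ[W.K] W.H X} (hφ : φ ∈ KOp W X X 0) (C : 𝒱.Obj) :
    ∃ Φ ∈ KOp W (X.prod C) (X.prod C) 0, ∀ x b,
      Φ (W.map (fst X C) x * W.map (snd X C) b) = W.map (fst X C) (φ x) * W.map (snd X C) b := by
  induction hφ using Submodule.span_induction with
  | mem φ hφ =>
    obtain ⟨p, hp, z, hz, rfl⟩ := hφ
    refine ⟨_, kop_span (W := W) (T := X.prod (X.prod C)) (p13 X X C) (p23 X X C) (d := 0)
      (w := ops.pull (p12 X X C) z) (q := (X.prod C).dim) (ops.pull_mem _ hz) (by
        simp only [dim_prod]; omega) (by ring), fun x b => ?_⟩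
    have e1 : p13 X X C ≫ fst X C = p12 X X C ≫ fst X X := by
      rw [p13, p12, Obj.lift_fst, Obj.lift_fst]
    have e2 : p13 X X C ≫ snd X C = p23 X X C ≫ snd X C := by
      rw [p13, p23, Obj.lift_snd]
    rw [LinearMap.comp_apply, LinearMap.comp_apply, LinearMap.mulLeft_apply,
      AlgHom.toLinearMap_apply, map_mul (W.map (p13 X X C)), ← W.map_comp, ← W.map_comp, e1, e2,
      W.map_comp, W.map_comp, W.cl_pull, ← mul_assoc, ← map_mul (W.map (p12 X X C)), W.push_mul,
      ← W.base_change, corr_apply]
  | zero => exact ⟨0, Submodule.zero_mem _, fun x b => by simp⟩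
  | add φ ψ _ _ h1 h2 =>
    obtain ⟨Φ, hΦ, h1⟩ := h1
    obtain ⟨Ψ, hΨ, h2⟩ := h2
    refine ⟨Φ + Ψ, Submodule.add_mem _ hΦ hΨ, fun x b => ?_⟩
    rw [LinearMap.add_apply, LinearMap.add_apply, h1, h2, map_add, add_mul]
  | smul a φ _ h1 =>
    obtain ⟨Φ, hΦ, h1⟩ := h1
    refine ⟨a • Φ, Submodule.smul_mem _ _ hΦ, fun x b => ?_⟩
    rw [LinearMap.smul_apply, LinearMap.smul_apply, h1, map_smul, smul_mul_assoc]

lemma proj_kop_iff : KunnethSpan W X i ↔ proj (W.isInternal X) i ∈ KOp W X X 0 := by
  constructor
  · rintro ⟨P, hP, hP'⟩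
    have hPp : P = proj (W.isInternal X) i :=
      gr_ext (W.isInternal X) (fun j a ha => by rw [hP' j a ha, isProjector_proj W X i j a ha])
    rw [← hPp, ← span_cycleOperators0]
    exact hP
  · intro h
    exact ⟨_, by rw [span_cycleOperators0]; exact h, isProjector_proj W X i⟩

lemma push_fst_of_tr {b : W.H C} (hb : b ∈ W.gr C j) {x : W.H X} (hx : x ∈ W.gr X i)
    (h0 : W.tr C b = 0) : W.push (fst X C) (W.map (fst X C) x * W.map (snd X C) b) = 0 := by
  apply nondeg_right
  intro y
  refine gr_induction (W.isInternal X) (p := fun y => W.tr X (y *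
    W.push (fst X C) (W.map (fst X C) x * W.map (snd X C) b)) = 0) ?_ ?_ y
  · intro l y hy
    have h1 : W.tr X (W.push (fst X C) (W.map (fst X C) x * W.map (snd X C) b) * y) = 0 := by
      rw [W.tr_push, mul_assoc, W.comm (W.map_mem _ hb) (W.map_mem _ hy), mul_smul_comm,
        map_smul, ← mul_assoc, ← map_mul, W.tr_prod, h0, mul_zero, smul_zero]
    have h2 := W.push_mem (fst X C) (W.mul_mem (W.map_mem (fst X C) hx) (W.map_mem (snd X C) hb))
    by_cases hm : 0 ≤ ((i + j : ℕ) : ℤ) + 2 * ((X.dim : ℤ) - ((X.prod C).dim : ℤ))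
    · obtain ⟨m, hm⟩ := Int.eq_ofNat_of_zero_le hm
      rw [hm] at h2
      have h3 : W.push (fst X C) (W.map (fst X C) x * W.map (snd X C) b) ∈ W.gr X m := by
        rw [grZ_natCast] at h2
        exact h2
      rw [W.comm hy h3, map_smul, h1, smul_zero]
    · rw [grZ_of_neg (by omega)] at h2
      rw [(Submodule.mem_bot _).1 h2, mul_zero, map_zero]
  · intro a b ha hb
    rw [add_mul, map_add, ha, hb, add_zero]

section curve

variable (hC : IsCurveLike W C c)
include hC

/-- `π^m(X × C)` from the Kunneth components of `X`. -/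
theorem span_prodC (hX : ∀ i, KunnethSpan W X i) (m : ℕ) : KunnethSpan W (X.prod C) m := by
  have ht : W.cl C c ∈ W.gr C (2 * 1) := cl_div hC.div
  have ht0 : ∀ l, 1 ≤ l → ∀ b ∈ W.gr C l, W.cl C c * b = 0 := by
    intro l hl b hb
    have := W.mul_mem ht hb
    rw [W.gr_eq_bot C _ (by rw [hC.dim]; omega)] at this
    exact (Submodule.mem_bot _).1 this
  -- the two operators
  set A0 : W.H (X.prod C) →ₗ[W.K] W.H (X.prod C) := (W.map (fst X C)).toLinearMap ∘ₗ
    W.push (fst X C) ∘ₗ LinearMap.mulLeft W.K (W.map (snd X C) (W.cl C c)) with hA0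
  set A2 : W.H (X.prod C) →ₗ[W.K] W.H (X.prod C) :=
    LinearMap.mulLeft W.K (W.map (snd X C) (W.cl C c)) ∘ₗ (W.map (fst X C)).toLinearMap ∘ₗ
      W.push (fst X C) with hA2
  have hd : ((X.prod C).dim : ℤ) = X.dim + 1 := by rw [dim_prod, hC.dim]; push_cast; ring
  have k0 : A0 ∈ KOp W (X.prod C) (X.prod C) 0 := by
    refine KOp.cast (KOp.comp (qop_pull (fst X C)).kop (KOp.comp (qop_push (fst X C)).kop
      (qop_incC hC.div).kop)) ?_
    rw [hd]; ring
  have k2 : A2 ∈ KOp W (X.prod C) (X.prod C) 0 := by
    refine KOp.cast (KOp.comp (qop_incC hC.div).kop (KOp.comp (qop_pull (fst X C)).kop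
      (qop_push (fst X C)).kop)) ?_
    rw [hd]; ring
  have hpush : ∀ x : W.H X, W.push (fst X C) (W.map (snd X C) (W.cl C c) * W.map (fst X C) x) = x :=
    fun x => by rw [push_fst_mul ht, hC.deg, one_smul]
  -- their values
  have v0 : ∀ l, ∀ b ∈ W.gr C l, ∀ t, ∀ x ∈ W.gr X t, A0 (W.map (fst X C) x * W.map (snd X C) b) =
      if l = 0 then W.map (fst X C) x * W.map (snd X C) b else 0 := by
    intro l b hb t x hx
    rw [hA0, LinearMap.comp_apply, LinearMap.comp_apply, LinearMap.mulLeft_apply,
      AlgHom.toLinearMap_apply]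
    split_ifs with hl
    · subst hl
      rw [W.gr_zero, Submodule.mem_span_singleton] at hb
      obtain ⟨r, rfl⟩ := hb
      rw [map_smul, map_one, mul_smul_comm, mul_one, mul_smul_comm, map_smul, map_smul, hpush]
    · rw [← mul_assoc, W.even_comm (W.map_mem (snd X C) ht), mul_assoc, ← map_mul,
        ht0 l (by omega) b hb, map_zero, mul_zero, map_zero, map_zero]
  have v2 : ∀ l, ∀ b ∈ W.gr C l, ∀ t, ∀ x ∈ W.gr X t, A2 (W.map (fst X C) x * W.map (snd X C) b) =
      if l = 2 then W.map (fst X C) x * W.map (snd X C) b else 0 := by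
    intro l b hb t x hx
    rw [hA2, LinearMap.comp_apply, LinearMap.comp_apply, LinearMap.mulLeft_apply,
      AlgHom.toLinearMap_apply]
    split_ifs with hl
    · subst hl
      have h1 := curve_gr2 hC hb
      rw [← h1, map_smul, mul_smul_comm, map_smul, map_smul, mul_smul_comm,
        ← W.even_comm (W.map_mem (snd X C) ht), hpush]
    · rw [push_fst_of_tr hb hx (W.tr_eq_zero hb (by rw [hC.dim]; omega)), map_zero, mul_zero]
  set A1 : W.H (X.prod C) →ₗ[W.K] W.H (X.prod C) := LinearMap.id - A0 - A2 with hA1
  -- the projector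
  choose Φ hΦ hΦ' using fun i => kop_ext (proj_kop_iff.1 (hX i)) C
  have hproj : proj (W.isInternal (X.prod C)) m = Φ m ∘ₗ A0 +
      (if 1 ≤ m then Φ (m - 1) ∘ₗ A1 else 0) +
      (if 2 ≤ m then Φ (m - 2) ∘ₗ A2 else 0) := by
    apply LinearMap.ext
    intro y
    refine W.kunneth_induction (p := fun y => (proj (W.isInternal (X.prod C)) m) y =
      ((Φ m ∘ₗ A0 + (if 1 ≤ m then Φ (m - 1) ∘ₗ A1 else 0) +
      (if 2 ≤ m then Φ (m - 2) ∘ₗ A2 else 0) : W.H (X.prod C) →ₗ[W.K] W.H (X.prod C)) y)) ?_ ?_ y
    · intro a b ha hb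
      rw [map_add, map_add, ha, hb]
    · intro i l x hx b hb
      have hxb := W.mul_mem (W.map_mem (fst X C) hx) (W.map_mem (snd X C) hb)
      have hl : (if m = i + l then W.map (fst X C) x * W.map (snd X C) b else 0) =
          proj (W.isInternal (X.prod C)) m (W.map (fst X C) x * W.map (snd X C) b) := by
        split_ifs with hm
        · rw [hm, proj_same _ hxb]
        · rw [proj_ne _ hxb (Ne.symm hm)]
      have hpx : ∀ s, Φ s (W.map (fst X C) x * W.map (snd X C) b) =
          if s = i then W.map (fst X C) x * W.map (snd X C) b else 0 := by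
        intro s
        rw [hΦ']
        split_ifs with hs
        · rw [hs, proj_same _ hx]
        · rw [proj_ne _ hx (Ne.symm hs), map_zero, zero_mul]
      rw [← hl]
      rcases Nat.lt_or_ge 2 l with hl2 | hl2
      · rw [W.gr_eq_bot C l (by rw [hC.dim]; omega)] at hb
        rw [(Submodule.mem_bot _).1 hb, map_zero, mul_zero, map_zero]
        simp
      · have e0 := v0 l b hb i x hx
        have e2 := v2 l b hb i x hx
        interval_cases l
        · rw [if_pos rfl] at e0
          rw [if_neg (by omega)] at e2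
          have e1 : A1 (W.map (fst X C) x * W.map (snd X C) b) = 0 := by
            rw [hA1, LinearMap.sub_apply, LinearMap.sub_apply, e0, e2, LinearMap.id_apply, sub_self,
              sub_zero]
          rw [LinearMap.add_apply, LinearMap.add_apply, LinearMap.comp_apply, e0, hpx]
          have f1 : (if 1 ≤ m then Φ (m - 1) ∘ₗ A1 else 0)
              (W.map (fst X C) x * W.map (snd X C) b) = 0 := by
            split_ifs
            · rw [LinearMap.comp_apply, e1, map_zero]
            · rfl
          have f2 : (if 2 ≤ m then Φ (m - 2) ∘ₗ A2 else 0)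
              (W.map (fst X C) x * W.map (snd X C) b) = 0 := by
            split_ifs
            · rw [LinearMap.comp_apply, e2, map_zero]
            · rfl
          rw [f1, f2, add_zero, add_zero, add_zero]
        · rw [if_neg (by omega)] at e0
          rw [if_neg (by omega)] at e2
          have e1 : A1 (W.map (fst X C) x * W.map (snd X C) b) =
              W.map (fst X C) x * W.map (snd X C) b := by
            rw [hA1, LinearMap.sub_apply, LinearMap.sub_apply, e0, e2, LinearMap.id_apply, sub_zero,
              sub_zero]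
          rw [LinearMap.add_apply, LinearMap.add_apply, LinearMap.comp_apply, e0, map_zero]
          have f1 : (if 1 ≤ m then Φ (m - 1) ∘ₗ A1 else 0)
              (W.map (fst X C) x * W.map (snd X C) b) =
              if m = i + 1 then W.map (fst X C) x * W.map (snd X C) b else 0 := by
            by_cases h1 : 1 ≤ m
            · rw [if_pos h1, LinearMap.comp_apply, e1, hpx]
              by_cases h2 : m = i + 1
              · rw [if_pos h2, if_pos (by omega)]
              · rw [if_neg h2, if_neg (by omega)]
            · rw [if_neg h1, if_neg (by omega)]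
              rfl
          have f2 : (if 2 ≤ m then Φ (m - 2) ∘ₗ A2 else 0)
              (W.map (fst X C) x * W.map (snd X C) b) = 0 := by
            split_ifs
            · rw [LinearMap.comp_apply, e2, map_zero]
            · rfl
          rw [f1, f2, add_zero, zero_add]
        · rw [if_neg (by omega)] at e0
          rw [if_pos rfl] at e2
          have e1 : A1 (W.map (fst X C) x * W.map (snd X C) b) = 0 := by
            rw [hA1, LinearMap.sub_apply, LinearMap.sub_apply, e0, e2, LinearMap.id_apply, sub_zero,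
              sub_self]
          rw [LinearMap.add_apply, LinearMap.add_apply, LinearMap.comp_apply, e0, map_zero]
          have f1 : (if 1 ≤ m then Φ (m - 1) ∘ₗ A1 else 0)
              (W.map (fst X C) x * W.map (snd X C) b) = 0 := by
            split_ifs
            · rw [LinearMap.comp_apply, e1, map_zero]
            · rfl
          have f2 : (if 2 ≤ m then Φ (m - 2) ∘ₗ A2 else 0)
              (W.map (fst X C) x * W.map (snd X C) b) =
              if m = i + 2 then W.map (fst X C) x * W.map (snd X C) b else 0 := by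
            by_cases h1 : 2 ≤ m
            · rw [if_pos h1, LinearMap.comp_apply, e2, hpx]
              by_cases h2 : m = i + 2
              · rw [if_pos h2, if_pos (by omega)]
              · rw [if_neg h2, if_neg (by omega)]
            · rw [if_neg h1, if_neg (by omega)]
              rfl
          rw [f1, f2, add_zero, zero_add]
  rw [proj_kop_iff, hproj]
  have k1 : A1 ∈ KOp W (X.prod C) (X.prod C) 0 :=
    Submodule.sub_mem _ (Submodule.sub_mem _ kone k0) k2
  refine Submodule.add_mem _ (Submodule.add_mem _ (kmul _ (hΦ m) _ k0) ?_) ?_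
  · split_ifs
    · exact kmul _ (hΦ _) _ k1
    · exact Submodule.zero_mem _
  · split_ifs
    · exact kmul _ (hΦ _) _ k2
    · exact Submodule.zero_mem _

end curve

/-- `π^m(X × P)` from the Kunneth components of `X`. -/
theorem span_prodP (hP : IsProjLike W P h) (hX : ∀ i, KunnethSpan W X i) (m : ℕ) :
    KunnethSpan W (X.prod P) m := by
  have hproj : proj (W.isInternal (X.prod P)) m = ∑ a ∈ range (P.dim + 1),
      (if 2 * a ≤ m then inc W X h a ∘ₗ proj (W.isInternal X) (m - 2 * a) ∘ₗ coe W X h a
        else 0) := by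
    apply gr_ext (W.isInternal (X.prod P))
    intro l y hy
    rw [LinearMap.sum_apply]
    have hterm : ∀ a ∈ range (P.dim + 1), (if 2 * a ≤ m then inc W X h a ∘ₗ
        proj (W.isInternal X) (m - 2 * a) ∘ₗ coe W X h a else 0) y =
        if m = l then inc W X h a (coe W X h a y) else 0 := by
      intro a ha
      have ha' : a ≤ P.dim := by simp at ha; omega
      by_cases hla : 2 * a ≤ l
      · have hc : coe W X h a y ∈ W.gr X (l - 2 * a) := qop_mem (qop_coe hP ha') hy (by omega)
        by_cases ham : 2 * a ≤ m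
        · rw [if_pos ham, LinearMap.comp_apply, LinearMap.comp_apply]
          by_cases hm : m = l
          · rw [if_pos hm, hm, proj_same _ hc]
          · rw [if_neg hm, proj_ne _ hc (by omega), map_zero]
        · rw [if_neg ham, if_neg (by omega)]
          rfl
      · have hc : coe W X h a y = 0 := qop_mem_neg (qop_coe hP ha') hy (by omega)
        rw [hc, map_zero]
        have : (if 2 * a ≤ m then inc W X h a ∘ₗ
            proj (W.isInternal X) (m - 2 * a) ∘ₗ coe W X h a else 0) y = 0 := by
          split_ifs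
          · rw [LinearMap.comp_apply, LinearMap.comp_apply, hc, map_zero, map_zero]
          · rfl
        rw [this]
        simp
    rw [Finset.sum_congr rfl hterm]
    by_cases hm : m = l
    · simp only [if_pos hm]
      rw [decomp hP y, hm, proj_same _ hy]
    · simp only [if_neg hm]
      rw [proj_ne _ hy (Ne.symm hm), Finset.sum_const_zero]
  rw [proj_kop_iff, hproj]
  refine Submodule.sum_mem _ fun a ha => ?_
  have ha' : a ≤ P.dim := by simp at ha; omega
  split_ifs
  · exact KOp.cast (KOp.comp (qop_inc hP a).kop (KOp.comp (proj_kop_iff.1 (hX _))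
      (qop_coe hP ha').kop)) (by ring)
  · exact Submodule.zero_mem _

end Pool.Agent.K3h8.MK
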